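import Pool.Agent.R59.DA.Stm

/-!
# DA-DEL: deleting at most `2 |QQ|` arcs leaves a `(k+1)`-partite digraph
-/

set_option autoImplicit false

namespace R59.DA

open Classical

theorem del : SDEL := by
  intro k u V _ D s φ _
  refine ⟨Finset.univ.filter (fun z : V × V => D z.1 z.2 ∧ (seen D s φ z.1 = Finset.univ ∨
    seen D s φ z.2 = Finset.univ ∨ col D s φ z.1 = col D s φ z.2)), ?_, ?_, col D s φ, ?_⟩
  · intro z hz
    exact (Finset.mem_filter.1 hz).2.1
  · have hsub : (Finset.univ.filter (fun z : V × V => D z.1 z.2 ∧ (seen D s φ z.1 = Finset.univ ∨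
        seen D s φ z.2 = Finset.univ ∨ col D s φ z.1 = col D s φ z.2))) ⊆
        QQ D s φ ∪ (QQ D s φ).image Prod.swap := by
      intro z hz
      obtain ⟨-, hD, h⟩ := Finset.mem_filter.1 hz
      rw [Finset.mem_union]
      by_cases h1 : seen D s φ z.1 = Finset.univ
      · exact Or.inl (Finset.mem_filter.2 ⟨Finset.mem_univ _, Or.inl h1⟩)
      · by_cases h2 : seen D s φ z.2 = Finset.univ
        · right
          rw [Finset.mem_image]
          exact ⟨z.swap, Finset.mem_filter.2 ⟨Finset.mem_univ _, Or.inl h2⟩, Prod.swap_swap z⟩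
        · left
          rcases h with h | h | h
          · exact absurd h h1
          · exact absurd h h2
          · exact Finset.mem_filter.2 ⟨Finset.mem_univ _, Or.inr ⟨hD, h1, h2, h⟩⟩
    refine (Finset.card_le_card hsub).trans ((Finset.card_union_le _ _).trans ?_)
    have := Finset.card_image_le (s := QQ D s φ) (f := Prod.swap)
    omega
  · intro x y hD hF hc
    exact hF (Finset.mem_filter.2 ⟨Finset.mem_univ _, hD, Or.inr (Or.inr hc)⟩)

end R59.DA
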